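import Pool.Agent.V5helper99.OB.Stm
import Pool.Agent.H974R2.FourArm

/-!
# JOB CNT of MP_6bd702_pr: the number of large clusters of a rectangle
-/

set_option autoImplicit false

namespace Pool.Agent.V5helper9.OB

open H974 H12S Finset H984P H984N
open Pool.Agent.V5helper99.OB

/-- the vertices of a square -/
noncomputable def Kb (c : ℤ × ℤ) (m : ℕ) : Finset Vtx :=
  Icc (c.1 - m) (c.1 + m) ×ˢ Icc (c.2 - m) (c.2 + m)

/-- the vertices far from it -/
def Fb (c : ℤ × ℤ) (m : ℕ) : Set Vtx :=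
  {y | y.1 ≤ c.1 - 3 * m ∨ c.1 + 3 * m ≤ y.1 ∨ y.2 ≤ c.2 - 3 * m ∨ c.2 + 3 * m ≤ y.2}

theorem okh : Ok (fun _ : Edg => (1 / 2 : ℝ)) := okq (by norm_num) (by norm_num)

theorem one_cross {m : ℕ} (hm : 5 ≤ m) (c : ℤ × ℤ) (S : Finset Edg) :
    Pr (fun _ => (1 / 2 : ℝ)) S (fun G : Finset Edg => ∃ x ∈ Kb c m,
      RB src tgt (Fb c m) (↑G : Set Edg) x) ≤ 1 - H974.kap := by
  refine le_trans ?_ (pr_Cr hm c.1 c.2 S)
  apply Pr_mono okh
  rintro G _ ⟨x, hx, w, hw, hr⟩
  refine ⟨x, w, ?_, hw, hr⟩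
  unfold Kb at hx
  rw [mem_product, mem_Icc, mem_Icc] at hx
  exact hx

theorem eq_sum_ind (n M : ℕ) (h : n ≤ M) :
    (n : ℝ) = ∑ k ∈ Finset.range M, ind (k + 1 ≤ n) := by
  have h1 : ∑ k ∈ Finset.range M, ind (k + 1 ≤ n) = ∑ k ∈ Finset.range n, (1 : ℝ) := by
    rw [← Finset.sum_subset (Finset.range_mono h)]
    · apply Finset.sum_congr rfl
      intro k hk
      rw [Finset.mem_range] at hk
      rw [ind_of (by omega)]
    · intro k _ hk
      rw [Finset.mem_range] at hk
      rw [ind_not_of (by omega)]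
  rw [h1]
  simp

theorem kOcc_level {m : ℕ} (hm : 5 ≤ m) (c : ℤ × ℤ) (S : Finset Edg) (k : ℕ) :
    Pr (fun _ => (1 / 2 : ℝ)) S (fun F : Finset Edg =>
      k ≤ NC src tgt (Kb c m) (Fb c m) (↑F : Set Edg)) ≤ (1 - H974.kap) ^ k := by
  have ok := okh
  set A : Finset Edg → Prop := fun G : Finset Edg => ∃ x ∈ Kb c m,
    RB src tgt (Fb c m) (↑G : Set Edg) x with hA
  have hmon : ∀ F G : Finset Edg, F ⊆ G → A F → A G := by
    rintro F G h ⟨x, hx, b, hb, hr⟩
    exact ⟨x, hx, b, hb, hr.mono (by exact_mod_cast h)⟩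
  have h1 : Pr (fun _ => (1 / 2 : ℝ)) S (fun F : Finset Edg =>
      k ≤ NC src tgt (Kb c m) (Fb c m) (↑F : Set Edg)) ≤
      Pr (fun _ => (1 / 2 : ℝ)) S (kOcc A k) := by
    apply Pr_mono ok
    intro F _ h
    exact NC_kOcc src tgt (Kb c m) (Fb c m) k F h
  refine h1.trans ((pr_kOcc ok hmon k).trans ?_)
  exact pow_le_pow_left₀ (Pr_nonneg ok _ _) (one_cross hm c S) k

theorem NC_mean {m : ℕ} (hm : 5 ≤ m) (c : ℤ × ℤ) (S : Finset Edg) :
    Ex (fun _ => (1 / 2 : ℝ)) S
      (fun F => (NC src tgt (Kb c m) (Fb c m) (↑F : Set Edg) : ℝ)) ≤ 1 / H974.kap := by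
  obtain ⟨M, hM⟩ : ∃ M : ℕ, (Kb c m).card = M := ⟨_, rfl⟩
  have e2 : Ex (fun _ => (1 / 2 : ℝ)) S
      (fun F => (NC src tgt (Kb c m) (Fb c m) (↑F : Set Edg) : ℝ)) ≤
      Ex (fun _ => (1 / 2 : ℝ)) S (fun F => ∑ k ∈ Finset.range M, ind (k + 1 ≤
        NC src tgt (Kb c m) (Fb c m) (↑F : Set Edg))) := by
    apply Ex_mono okh
    intro F _
    refine le_of_eq (eq_sum_ind _ M ?_)
    rw [← hM]
    exact NC_le _ _ _ _ _
  refine e2.trans ?_
  rw [Ex_sum _ S (Finset.range M) (fun k F => ind (k + 1 ≤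
        NC src tgt (Kb c m) (Fb c m) (↑F : Set Edg)))]
  have hk0 := H974.kap_pos
  have hk1 := H974.kap_le
  have e3 : ∀ k ∈ Finset.range M, Ex (fun _ => (1 / 2 : ℝ)) S (fun F => ind (k + 1 ≤
        NC src tgt (Kb c m) (Fb c m) (↑F : Set Edg))) ≤ (1 - H974.kap) ^ k := by
    intro k _
    refine (kOcc_level hm c S (k + 1)).trans ?_
    rw [pow_succ]
    exact mul_le_of_le_one_right (pow_nonneg (by linarith) k) (by linarith)
  refine (Finset.sum_le_sum e3).trans ?_
  have hne : (1 - H974.kap : ℝ) ≠ 1 := by linarith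
  rw [geom_sum_eq hne]
  have hp : 0 ≤ (1 - H974.kap : ℝ) ^ M := pow_nonneg (by linarith) M
  rw [show (1 - H974.kap - 1 : ℝ) = -H974.kap by ring, div_neg, ← neg_div, neg_sub]
  apply div_le_div_of_nonneg_right _ hk0.le
  linarith

/-- marked vertices of a square in distinct large clusters -/
theorem count_le (c : ℤ × ℤ) (m : ℕ) (F : Finset Edg) (J : Finset Vtx)
    (hJ : ∀ v ∈ J, v ∈ Kb c m)
    (h1 : ∀ v ∈ J, ∃ w, ((4 * m : ℕ) : ℤ) ≤ sd v w ∧ Reach (↑F : Set Edg) v w)
    (h2 : ∀ v ∈ J, ∀ w ∈ J, Reach (↑F : Set Edg) v w → v = w) :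
    J.card ≤ NC src tgt (Kb c m) (Fb c m) (↑F : Set Edg) := by
  classical
  unfold NC
  apply Finset.card_le_card_of_injOn (fun u => clu src tgt (↑F : Set Edg) u)
  · intro u hu
    rw [Finset.mem_coe] at hu
    rw [Finset.mem_coe, mem_TC]
    obtain ⟨w, hw, hr⟩ := h1 u hu
    refine ⟨u, hJ u hu, ⟨w, ?_, hr⟩, rfl⟩
    have h3 := hJ u hu
    unfold Kb at h3
    rw [mem_product, mem_Icc, mem_Icc] at h3
    unfold sd at hw
    show w.1 ≤ c.1 - 3 * m ∨ c.1 + 3 * m ≤ w.1 ∨ w.2 ≤ c.2 - 3 * m ∨ c.2 + 3 * m ≤ w.2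
    rcases max_choice |u.1 - w.1| |u.2 - w.2| with h | h
    · rw [h] at hw
      rcases abs_choice (u.1 - w.1) with h' | h' <;> rw [h'] at hw <;> push_cast at hw <;> omega
    · rw [h] at hw
      rcases abs_choice (u.2 - w.2) with h' | h' <;> rw [h'] at hw <;> push_cast at hw <;> omega
  · intro u hu u' hu' heq
    rw [Finset.mem_coe] at hu hu'
    apply h2 u hu u' hu'
    have heq' : clu src tgt (↑F : Set Edg) u = clu src tgt (↑F : Set Edg) u' := heq
    have : u' ∈ clu src tgt (↑F : Set Edg) u := by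
      rw [heq']
      exact Relation.ReflTransGen.refl
    exact this

theorem sum_card (S : Finset Edg) (P : Vtx → Finset Edg → Prop) (I : Finset Vtx)
    [∀ F, DecidablePred (fun v => P v F)] :
    ∑ v ∈ I, Pr (fun _ => (1 / 2 : ℝ)) S (P v) =
      Ex (fun _ => (1 / 2 : ℝ)) S (fun F => ((I.filter (fun v => P v F)).card : ℝ)) := by
  unfold Pr
  rw [← Ex_sum]
  apply Ex_congr
  intro F _
  rw [Finset.card_filter]
  push_cast
  apply Finset.sum_congr rfl
  intro u _
  by_cases h : P u F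
  · rw [ind_of h, if_pos h]
  · rw [ind_not_of h, if_neg h]

/-- a vertex which is joined to another vertex is in the rectangle -/
theorem inR_of_reach {F : Set Edg} {a b c d : ℤ} (hF : F ⊆ ↑(RE a b c d)) {v w : Vtx}
    (h : Reach F v w) (hne : v ≠ w) : inR a b c d v := by
  rcases Relation.ReflTransGen.cases_head h with h | ⟨x, ⟨⟨x0, y0, bo⟩, he, hcase⟩, _⟩
  · exact absurd h hne
  · have he' := hF he
    unfold inR
    cases bo
    · rw [mem_coe, mem_RE_false] at he'
      simp only [src_mk, tgt_false] at hcase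
      rcases hcase with ⟨h3, h4⟩ | ⟨h3, h4⟩
      · rw [← h3]; simp only; omega
      · rw [← h4]; simp only; omega
    · rw [mem_coe, mem_RE_true] at he'
      simp only [src_mk, tgt_true] at hcase
      rcases hcase with ⟨h3, h4⟩ | ⟨h3, h4⟩
      · rw [← h3]; simp only; omega
      · rw [← h4]; simp only; omega

/-- **Bounded expected number of large clusters.** -/
theorem big (N : ℕ) : ∃ C : ℝ, 0 < C ∧ ∀ (ρ : ℕ), 1 ≤ ρ → ∀ (a b c d : ℤ), b - a ≤ N * ρ →
    d - c ≤ N * ρ → ∀ (S : Finset Edg), S ⊆ RE a b c d →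
    ∀ (P : Vtx → Finset Edg → Prop) (I : Finset Vtx),
    (∀ F ⊆ S, ∀ v ∈ I, P v F → ∃ w, (ρ : ℤ) ≤ sd v w ∧ Reach (↑F : Set Edg) v w) →
    (∀ F ⊆ S, ∀ v ∈ I, ∀ w ∈ I, P v F → P w F → Reach (↑F : Set Edg) v w → v = w) →
    ∑ v ∈ I, PQ (1 / 2) S (P v) ≤ C := by
  classical
  have hk0 := H974.kap_pos
  refine ⟨(5 * N + 1) ^ 2 * (1 / H974.kap) + (20 * N + 1) ^ 2, by positivity, ?_⟩
  intro ρ hρ a b c d hab hcd S hS P I h1 h2
  have hin : ∀ F ⊆ S, ∀ v ∈ I, P v F → inR a b c d v := by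
    intro F hF v hv hP
    obtain ⟨w, hw, hr⟩ := h1 F hF v hv hP
    apply inR_of_reach (F := (↑F : Set Edg)) (by exact_mod_cast hF.trans hS) hr
    rintro rfl
    unfold sd at hw
    simp at hw
    omega
  show ∑ v ∈ I, Pr (fun _ => (1 / 2 : ℝ)) S (P v) ≤ _
  rw [sum_card S P I]
  by_cases hρ2 : ρ < 20
  · -- few vertices
    have h3 : Ex (fun _ => (1 / 2 : ℝ)) S (fun F => ((I.filter (fun v => P v F)).card : ℝ))
        ≤ (20 * N + 1) ^ 2 := by
      apply Ex_le_of_le okh
      intro F hF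
      have h4 : I.filter (fun v => P v F) ⊆ Icc a b ×ˢ Icc c d := by
        intro v hv
        rw [mem_filter] at hv
        have := hin F hF v hv.1 hv.2
        rw [mem_product, mem_Icc, mem_Icc]
        exact this
      have h5 := Finset.card_le_card h4
      rw [card_product, Int.card_Icc, Int.card_Icc] at h5
      have hb : (N : ℤ) * ρ ≤ N * 20 := by
        apply mul_le_mul_of_nonneg_left _ (by positivity)
        exact_mod_cast hρ2.le
      have h6 : (b + 1 - a).toNat ≤ 20 * N + 1 := by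
        rw [Int.toNat_le]; push_cast; linarith
      have h7 : (d + 1 - c).toNat ≤ 20 * N + 1 := by
        rw [Int.toNat_le]; push_cast; linarith
      have h8 := h5.trans (Nat.mul_le_mul h6 h7)
      have h9 : ((I.filter (fun v => P v F)).card : ℝ) ≤ (((20 * N + 1) * (20 * N + 1) : ℕ) : ℝ) := by
        exact_mod_cast h8
      push_cast at h9
      rw [sq]
      exact h9
    have h4 : (0 : ℝ) ≤ (5 * N + 1) ^ 2 * (1 / H974.kap) := by positivity
    linarith
  · push Not at hρ2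
    set m := ρ / 4 with hm
    have hm5 : 5 ≤ m := by omega
    have hm4 : 4 * m ≤ ρ := by omega
    have hmρ : ρ ≤ 5 * m := by omega
    have hm0 : (0 : ℤ) < m := by omega
    set ce : ℕ × ℕ → ℤ × ℤ := fun z => (a + z.1 * m, c + z.2 * m) with hce
    have key : ∀ F ⊆ S, ((I.filter (fun v => P v F)).card : ℝ) ≤
        ∑ z ∈ range (5 * N + 1) ×ˢ range (5 * N + 1),
          (NC src tgt (Kb (ce z) m) (Fb (ce z) m) (↑F : Set Edg) : ℝ) := by
      intro F hF
      have h3 : I.filter (fun v => P v F) ⊆ (range (5 * N + 1) ×ˢ range (5 * N + 1)).biUnion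
          (fun z => (I.filter (fun v => P v F)).filter (fun v => v ∈ Kb (ce z) m)) := by
        intro v hv
        have hv' := mem_filter.1 hv
        obtain ⟨⟨i1, i2⟩, i3, i4⟩ := hin F hF v hv'.1 hv'.2
        rw [mem_biUnion]
        have hb : (N : ℤ) * ρ ≤ N * (5 * m) := by
          apply mul_le_mul_of_nonneg_left _ (by positivity)
          exact_mod_cast hmρ
        have j1 : (v.1 - a) / m ≤ 5 * N := by
          apply Int.ediv_le_of_le_mul hm0
          linarith
        have j2 : (v.2 - c) / m ≤ 5 * N := by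
          apply Int.ediv_le_of_le_mul hm0
          linarith
        have j3 : 0 ≤ (v.1 - a) / m := Int.ediv_nonneg (by linarith) hm0.le
        have j4 : 0 ≤ (v.2 - c) / m := Int.ediv_nonneg (by linarith) hm0.le
        refine ⟨(((v.1 - a) / m).toNat, ((v.2 - c) / m).toNat), ?_, ?_⟩
        · rw [mem_product, mem_range, mem_range]
          simp only
          constructor
          · rw [Int.toNat_lt j3]; push_cast; omega
          · rw [Int.toNat_lt j4]; push_cast; omega
        · rw [mem_filter]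
          refine ⟨hv, ?_⟩
          unfold Kb
          rw [mem_product, mem_Icc, mem_Icc]
          simp only [hce, Int.toNat_of_nonneg j3, Int.toNat_of_nonneg j4]
          have k1 := Int.ediv_mul_le (v.1 - a) hm0.ne'
          have k2 := Int.lt_ediv_add_one_mul_self (v.1 - a) hm0
          have k3 := Int.ediv_mul_le (v.2 - c) hm0.ne'
          have k4 := Int.lt_ediv_add_one_mul_self (v.2 - c) hm0
          rw [add_mul, one_mul] at k2 k4
          refine ⟨⟨?_, ?_⟩, ?_, ?_⟩ <;> linarith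
      have h4 := (Finset.card_le_card h3).trans Finset.card_biUnion_le
      have h5 : ∀ z ∈ range (5 * N + 1) ×ˢ range (5 * N + 1),
          ((I.filter (fun v => P v F)).filter (fun v => v ∈ Kb (ce z) m)).card ≤
          NC src tgt (Kb (ce z) m) (Fb (ce z) m) (↑F : Set Edg) := by
        intro z _
        apply count_le
        · intro v hv
          exact (mem_filter.1 hv).2
        · intro v hv
          have hv' := mem_filter.1 (mem_filter.1 hv).1
          obtain ⟨w, hw, hr⟩ := h1 F hF v hv'.1 hv'.2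
          exact ⟨w, le_trans (by exact_mod_cast hm4) hw, hr⟩
        · intro v hv w hw hr
          have hv' := mem_filter.1 (mem_filter.1 hv).1
          have hw' := mem_filter.1 (mem_filter.1 hw).1
          exact h2 F hF v hv'.1 w hw'.1 hv'.2 hw'.2 hr
      have h6 := h4.trans (Finset.sum_le_sum h5)
      exact_mod_cast h6
    refine (Ex_mono okh key).trans ?_
    rw [Ex_sum]
    have h3 : ∀ z ∈ range (5 * N + 1) ×ˢ range (5 * N + 1), Ex (fun _ => (1 / 2 : ℝ)) S
        (fun F => (NC src tgt (Kb (ce z) m) (Fb (ce z) m) (↑F : Set Edg) : ℝ)) ≤ 1 / H974.kap :=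
      fun z _ => NC_mean hm5 (ce z) S
    refine (Finset.sum_le_card_nsmul _ _ _ h3).trans ?_
    rw [card_product, card_range, nsmul_eq_mul]
    push_cast
    have h4 : (0 : ℝ) ≤ (20 * N + 1) ^ 2 := by positivity
    rw [sq (5 * (N : ℝ) + 1)]
    linarith

theorem t_BIG : S_BIG := by
  obtain ⟨C, hC, h⟩ := big 16
  refine ⟨C, hC, ?_⟩
  intro ρ hρ a b c d hab hcd P I h1 h2
  exact h ρ hρ a b c d (by exact_mod_cast hab) (by exact_mod_cast hcd) _ (Subset.refl _) P I h1 h2

end Pool.Agent.V5helper9.OB
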