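import Pool.Agent.V5helper9.OB.LL

/-!
# JOB CNT of MP_6bd702_pr: a large dual cluster near a line
-/

set_option autoImplicit false

namespace Pool.Agent.V5helper9.OB

open H974 H12S Finset H984P H984N
open Pool.Agent.V5helper99.OB

/-- The edges `e` with `a ≤ e.1` which separate two faces of the box of faces
`[a - 1, B] × [y - R, y + R]`. -/
def Dq (a B y : ℤ) (R : ℕ) : Set Edg :=
  {e | a ≤ e.1 ∧ inR (a - 1) B (y - R) (y + R) (dsrc e) ∧ inR (a - 1) B (y - R) (y + R) (dtgt e)}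

/-- the same set as a finite set -/
noncomputable def Df (a B y : ℤ) (R : ℕ) : Finset Edg :=
  @Finset.filter Edg (fun e => e ∈ Dq a B y R) (Classical.decPred _)
    (Icc a B ×ˢ (Icc (y - R) (y + R) ×ˢ univ))

theorem mem_Df {a B y : ℤ} {R : ℕ} {e : Edg} : e ∈ Df a B y R ↔ e ∈ Dq a B y R := by
  simp only [Df, mem_filter, mem_product, mem_Icc]
  constructor
  · exact fun h => h.2
  · intro h
    refine ⟨?_, h⟩
    obtain ⟨h1, h2, ⟨h3, h4⟩, h5, h6⟩ := h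
    unfold dtgt at h3 h4 h5 h6
    exact ⟨⟨h1, h4⟩, ⟨h5, h6⟩, mem_univ _⟩

theorem coe_Df {a B y : ℤ} {R : ℕ} : (↑(Df a B y R) : Set Edg) = Dq a B y R := by
  ext e; exact mem_Df

/-- one step of a dual path -/
theorem step_col {G : Set Edg} {u v : Vtx} (h : DAdj G u v) :
    ∃ e ∈ G, ((dsrc e = u ∧ dtgt e = v) ∨ (dsrc e = v ∧ dtgt e = u)) ∧
      (dsrc e).1 ≤ (dtgt e).1 ∧ (dtgt e).1 = e.1 ∧ (dtgt e).1 ≤ (dsrc e).1 + 1 := by
  obtain ⟨⟨x, y, _ | _⟩, he, hc⟩ := h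
  · exact ⟨_, he, hc, by simp, rfl, by simp⟩
  · exact ⟨_, he, hc, by simp, rfl, by simp⟩

/-- the event: a large dual cluster with leftmost column `a`, in the box of faces
`[a - 1, B] × [y - R, y + R]` -/
def Ev (a B y : ℤ) (R : ℕ) (F : Set Edg) : Prop :=
  ∃ v : Vtx, v.1 = a ∧ (y - R ≤ v.2 ∧ v.2 ≤ y + R) ∧
    (∃ g, ((R / 8 : ℕ) : ℤ) ≤ sd g v ∧ DReach (Dq a B y R \ F) v g) ∧
    ∀ g, DReach (Dq a B y R \ F) v g → a ≤ g.1

/-- paths in a box stay in the box -/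
theorem in_box {a b c d : ℤ} {G : Set Edg}
    (hG : ∀ e ∈ G, inR a b c d (dsrc e) ∧ inR a b c d (dtgt e)) {u v : Vtx}
    (hu : inR a b c d u) (h : DReach G u v) : inR a b c d v := by
  induction h with
  | refl => exact hu
  | tail _ hs _ =>
    obtain ⟨e, he, hc | hc⟩ := hs
    · rw [← hc.2]; exact (hG e he).2
    · rw [← hc.1]; exact (hG e he).1

/-- exit to the right -/
theorem exit_right {G H : Set Edg} {a b : ℤ} {u : Vtx} (hu : u.1 ≤ b)
    (hcol : ∀ g, DReach G u g → a ≤ g.1)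
    (hGH : ∀ e ∈ G, a ≤ (dsrc e).1 → (dtgt e).1 ≤ b → e ∈ H) {w : Vtx} (h : DReach G u w) :
    (DReach H u w ∧ w.1 ≤ b) ∨ ∃ w', DReach H u w' ∧ w'.1 = b := by
  induction h with
  | refl => exact Or.inl ⟨DReach.refl _ _, hu⟩
  | @tail x x' hx hs ih =>
    rcases ih with ⟨ih1, ih2⟩ | ih
    · by_cases hb : x.1 = b
      · exact Or.inr ⟨x, ih1, hb⟩
      · left
        have hx' : DReach G u x' := hx.tail hs
        have c1 := hcol x hx
        have c2 := hcol x' hx'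
        obtain ⟨e, he, hc, s1, s2, s3⟩ := step_col hs
        rcases hc with ⟨hc1, hc2⟩ | ⟨hc1, hc2⟩
        · rw [hc1, hc2] at s1 s3
          have : e ∈ H := hGH e he (by rw [hc1]; exact c1) (by rw [hc2]; omega)
          exact ⟨ih1.tail ⟨e, this, Or.inl ⟨hc1, hc2⟩⟩, by omega⟩
        · rw [hc1, hc2] at s1 s3
          have : e ∈ H := hGH e he (by rw [hc1]; exact c2) (by rw [hc2]; omega)
          exact ⟨ih1.tail ⟨e, this, Or.inr ⟨hc1, hc2⟩⟩, by omega⟩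
    · exact Or.inr ih

theorem sd_half {u v w : Vtx} {k l : ℕ} (hkl : 2 * l ≤ k) (h : (k : ℤ) ≤ sd w u) :
    (l : ℤ) ≤ sd u v ∨ (l : ℤ) ≤ sd w v := by
  by_contra hcon
  push Not at hcon
  obtain ⟨h1, h2⟩ := hcon
  unfold sd at h h1 h2
  rw [max_lt_iff, abs_lt, abs_lt] at h1 h2
  rcases le_max_iff.1 h with h | h
  · rcases le_abs.1 h with h | h <;> omega
  · rcases le_abs.1 h with h | h <;> omega

theorem sd_comm' (u v : Vtx) : sd u v = sd v u := by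
  unfold sd
  rw [abs_sub_comm u.1, abs_sub_comm u.2]

/-- a set of integers with a lower bound has a least element -/
theorem exists_least {P : ℤ → Prop} {b : ℤ} (h : ∃ z, P z) (hb : ∀ z, P z → b ≤ z) :
    ∃ z, P z ∧ ∀ w, P w → z ≤ w := by
  obtain ⟨z, h1, h2⟩ := Int.exists_least_of_bdd ⟨b, hb⟩ h
  exact ⟨z, h1, h2⟩

/-- from the event `DT` to the leftmost column -/
theorem Ev_of_DT {A y : ℤ} {R θ : ℕ} (hR : 16 ≤ R) (hθ : 16 * θ ≤ R) {F : Set Edg}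
    (h : DT A y R θ F) : ∃ a : ℤ, (A ≤ a ∧ a ≤ A + θ) ∧ Ev a (a + (R / 2 : ℕ)) y R F := by
  obtain ⟨f, f1, f2, f3, ⟨g0, g1, g2⟩, hcol⟩ := h
  set G : Set Edg := DBx A y R \ F with hG
  obtain ⟨a, ⟨f', hf', ha⟩, hmin⟩ := exists_least (P := fun a => ∃ g, DReach G f g ∧ g.1 = a)
    (b := A) ⟨f.1, f, DReach.refl _ _, rfl⟩ (by rintro z ⟨g, hg, rfl⟩; exact hcol g hg)
  have hA : A ≤ a := by rw [← ha]; exact hcol f' hf'
  have haf : a ≤ f.1 := hmin f.1 ⟨f, DReach.refl _ _, rfl⟩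
  refine ⟨a, ⟨hA, by omega⟩, f', ha, ?_, ?_, ?_⟩
  · have hbox : inR (A - 1) (A + R) (y - R) (y + R) f' := by
      refine in_box (G := G) (u := f) ?_ ?_ hf'
      · intro e he; exact ⟨he.1.2.1, he.1.2.2⟩
      · rw [abs_le] at f3
        unfold inR; omega
    exact hbox.2
  · have hcol' : ∀ g, DReach G f' g → a ≤ g.1 := fun g hg => hmin g.1 ⟨g, hf'.trans hg, rfl⟩
    have hGH : ∀ e ∈ G, a ≤ (dsrc e).1 → (dtgt e).1 ≤ a + (R / 2 : ℕ) →
        e ∈ Dq a (a + (R / 2 : ℕ)) y R \ F := by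
      rintro e ⟨he, heF⟩ h1 h2
      refine ⟨?_, heF⟩
      obtain ⟨e1, ⟨⟨e2, e3⟩, e4⟩, ⟨e5, e6⟩, e7⟩ := he
      have s1 : (dsrc e).1 ≤ (dtgt e).1 := by
        obtain ⟨x, y, _ | _⟩ := e <;> simp
      have s2 : (dtgt e).1 = e.1 := rfl
      exact ⟨by omega, ⟨⟨by omega, by omega⟩, e4⟩, ⟨by omega, by omega⟩, e7⟩
    have hex : ∀ w, DReach G f' w → ((R / 8 : ℕ) : ℤ) ≤ sd w f' →
        ∃ g, ((R / 8 : ℕ) : ℤ) ≤ sd g f' ∧ DReach (Dq a (a + (R / 2 : ℕ)) y R \ F) f' g := by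
      intro w hw hd
      rcases exit_right (b := a + (R / 2 : ℕ)) (by omega) hcol' hGH hw with h1 | h1
      · exact ⟨w, hd, h1.1⟩
      · obtain ⟨w', k1, k2⟩ := h1
        refine ⟨w', ?_, k1⟩
        unfold sd
        refine le_trans ?_ (le_max_left _ _)
        refine le_trans ?_ (le_abs_self _)
        omega
    rcases sd_half (u := f) (v := f') (w := g0) (k := R / 4) (l := R / 8) (by omega) g1 with h1 | h1
    · exact hex f hf'.symm h1
    · exact hex g0 (hf'.symm.trans g2) h1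
  · intro g hg
    have hsub : (Dq a (a + (R / 2 : ℕ)) y R \ F) ⊆ G := by
      rintro e ⟨⟨e1, ⟨⟨e2, e3⟩, e4⟩, ⟨e5, e6⟩, e7⟩, heF⟩
      exact ⟨⟨by omega, ⟨⟨by omega, by omega⟩, e4⟩, ⟨by omega, by omega⟩, e7⟩, heF⟩
    exact hmin g.1 ⟨g, hf'.trans (hg.mono hsub), rfl⟩

/-- the dual configuration in a finite box, as a configuration of the lattice -/
theorem reach_dual {D F : Finset Edg} {u v : Vtx} :
    Reach (↑(dmp (D \ F)) : Set Edg) u v ↔ DReach (↑D \ ↑F : Set Edg) u v := by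
  rw [coe_dmp, reach_dl, Finset.coe_sdiff]

/-- from the event in its own box to the common box -/
theorem Ext_of_Ev {A a y : ℤ} {R : ℕ} (hR : 16 ≤ R) (hA : A ≤ a) (ha : a ≤ A + (R / 8 : ℕ))
    {F : Finset Edg} (h : Ev a (a + (R / 2 : ℕ)) y R ↑F) :
    ∃ k : ℤ, (y - R ≤ k ∧ k ≤ y + R) ∧ Ext (R / 16) (a, k) (dmp (Df A (A + (R / 2 : ℕ)) y R \ F)) := by
  obtain ⟨v, hv, hvb, ⟨g0, g1, g2⟩, hcol⟩ := h
  set B : ℤ := A + (R / 2 : ℕ) with hB
  set G : Set Edg := Dq a (a + (R / 2 : ℕ)) y R \ ↑F with hG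
  set H : Set Edg := Dq A B y R \ ↑F with hH
  -- the cluster in the common box
  have hcl : ∀ g, DReach H v g → DReach G v g ∧ a ≤ g.1 := by
    intro g hg
    induction hg with
    | refl => exact ⟨DReach.refl _ _, by omega⟩
    | @tail x x' hx hs ih =>
      obtain ⟨ih1, ih2⟩ := ih
      obtain ⟨e, he, hc, s1, s2, s3⟩ := step_col hs
      obtain ⟨⟨e1, ⟨⟨e2, e3⟩, e4⟩, ⟨e5, e6⟩, e7⟩, heF⟩ := he
      have hge : a ≤ e.1 := by
        rcases hc with ⟨hc1, hc2⟩ | ⟨hc1, hc2⟩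
        · rw [hc1, hc2] at s1; rw [hc2] at s2; omega
        · rw [hc2] at s2; omega
      have heG : e ∈ G := by
        refine ⟨⟨hge, ⟨⟨by omega, by omega⟩, e4⟩, ⟨by omega, by omega⟩, e7⟩, heF⟩
      have hr : DReach G v x' := ih1.tail ⟨e, heG, hc⟩
      exact ⟨hr, hcol x' hr⟩
  have hbox : ∀ g, DReach H v g → inR (A - 1) B (y - R) (y + R) g := by
    intro g hg
    refine in_box (G := H) (u := v) ?_ ?_ hg
    · intro e he; exact ⟨he.1.2.1, he.1.2.2⟩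
    · unfold inR; omega
  -- a far point of the cluster
  have hGH : ∀ e ∈ G, a ≤ (dsrc e).1 → (dtgt e).1 ≤ B → e ∈ H := by
    rintro e ⟨⟨e1, ⟨⟨e2, e3⟩, e4⟩, ⟨e5, e6⟩, e7⟩, heF⟩ h1 h2
    have s1 : (dsrc e).1 ≤ (dtgt e).1 := by
      obtain ⟨x, y, _ | _⟩ := e <;> simp
    exact ⟨⟨by omega, ⟨⟨by omega, by omega⟩, e4⟩, ⟨by omega, by omega⟩, e7⟩, heF⟩
  obtain ⟨w, hw1, hw2⟩ : ∃ w, ((R / 8 : ℕ) : ℤ) ≤ sd w v ∧ DReach H v w := by
    rcases exit_right (a := a) (b := B) (by omega) hcol hGH g2 with h1 | ⟨w', k1, k2⟩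
    · exact ⟨g0, g1, h1.1⟩
    · refine ⟨w', ?_, k1⟩
      unfold sd
      refine le_trans ?_ (le_max_left _ _)
      refine le_trans ?_ (le_abs_self _)
      omega
  -- the highest vertex of column `a`
  obtain ⟨k0, hk0, hmax⟩ := exists_least (P := fun k => DReach H v (a, -k)) (b := -(y + R))
    ⟨-v.2, by
      have : ((a, - -v.2) : Vtx) = v := by rw [neg_neg, ← hv]
      rw [this]; exact DReach.refl _ _⟩
    (by
      intro z hz
      have := (hbox _ hz).2.2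
      simp only at this
      omega)
  have hk1 := hbox _ hk0
  refine ⟨-k0, hk1.2, ?_, ?_⟩
  · rcases sd_half (u := v) (v := (a, -k0)) (w := w) (k := R / 8) (l := R / 16) (by omega) hw1
      with h1 | h1
    · refine ⟨v, ?_, ?_⟩
      · rw [sd_comm']; exact h1
      · rw [reach_dual, coe_Df]; exact hk0.symm
    · refine ⟨w, ?_, ?_⟩
      · rw [sd_comm']; exact h1
      · rw [reach_dual, coe_Df]; exact hk0.symm.trans hw2
  · intro g hg
    rw [reach_dual, coe_Df] at hg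
    have hg' : DReach H v g := hk0.trans hg
    refine ⟨(hcl g hg').2, ?_⟩
    intro h1
    simp only at h1 ⊢
    have h2 := hmax (-g.2) (by
      have : ((a, - -g.2) : Vtx) = g := by rw [neg_neg, ← h1]
      rw [this]; exact hg')
    omega

/-! ### translation -/

theorem dreach_trl {s : ℤ} {G : Set Edg} {u v : Vtx} (h : DReach G u v) :
    DReach ((fun e : Edg => (e.1 + s, e.2.1, e.2.2)) '' G) (u.1 + s, u.2) (v.1 + s, v.2) := by
  induction h with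
  | refl => exact DReach.refl _ _
  | tail _ hs ih =>
    refine ih.tail ?_
    obtain ⟨⟨x, y, b⟩, he, hc⟩ := hs
    refine ⟨_, Set.mem_image_of_mem _ he, ?_⟩
    cases b
    · rcases hc with ⟨h1, h2⟩ | ⟨h1, h2⟩
      · left
        rw [← h1, ← h2]
        simp only [dsrc_false, dtgt_mk]
        constructor
        · ext <;> simp; ring
        · trivial
      · right
        rw [← h1, ← h2]
        simp only [dsrc_false, dtgt_mk]
        constructor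
        · ext <;> simp; ring
        · trivial
    · rcases hc with ⟨h1, h2⟩ | ⟨h1, h2⟩
      · left
        rw [← h1, ← h2]
        simp
      · right
        rw [← h1, ← h2]
        simp

theorem mp_coe (s : ℤ) (F : Finset Edg) :
    (↑((trl s 0).mp F) : Set Edg) = (fun e : Edg => (e.1 + s, e.2.1, e.2.2)) '' ↑F := by
  rw [LSym.coe_mp]
  apply Set.image_congr
  intro e _
  show (e.1 + s, e.2.1 + 0, e.2.2) = _
  rw [add_zero]

theorem Df_trl (s a B y : ℤ) (R : ℕ) : (trl s 0).mp (Df a B y R) = Df (a + s) (B + s) y R := by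
  ext ⟨x, z, _ | _⟩
  · rw [LSym.mem_mp, trl_φs, mem_Df, mem_Df]
    simp only [Dq, Set.mem_ofPred_eq, inR, dsrc_false, dtgt_mk]
    omega
  · rw [LSym.mem_mp, trl_φs, mem_Df, mem_Df]
    simp only [Dq, Set.mem_ofPred_eq, inR, dsrc_true, dtgt_mk]
    omega

theorem Ev_trl {s a B y : ℤ} {R : ℕ} {F : Finset Edg} (h : Ev a B y R ↑F) :
    Ev (a + s) (B + s) y R ↑((trl s 0).mp F) := by
  have hset : ∀ (s a B : ℤ) (F : Finset Edg), (Dq (a + s) (B + s) y R \ ↑((trl s 0).mp F) : Set Edg)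
      = (fun e : Edg => (e.1 + s, e.2.1, e.2.2)) '' (Dq a B y R \ ↑F) := by
    intro s a B F
    rw [← coe_Df, ← coe_Df, ← Df_trl, ← Finset.coe_sdiff, ← LSym.mp_sdiff, mp_coe,
      Finset.coe_sdiff]
  have hF : (trl (-s) 0).mp ((trl s 0).mp F) = F := by
    have := trl_trl s 0 F
    rwa [neg_zero] at this
  obtain ⟨v, h1, h2, ⟨g, g1, g2⟩, h3⟩ := h
  refine ⟨(v.1 + s, v.2), by rw [h1], h2, ⟨(g.1 + s, g.2), ?_, ?_⟩, ?_⟩
  · unfold sd at g1 ⊢
    simpa using g1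
  · rw [hset]
    exact dreach_trl g2
  · intro g' hg'
    have h4 := dreach_trl (s := -s) hg'
    rw [← hset (-s) (a + s) (B + s) ((trl s 0).mp F), hF] at h4
    simp only [add_neg_cancel_right] at h4
    have := h3 _ h4
    simp only at this
    omega

theorem Pr_Ev (a a' y : ℤ) (R : ℕ) :
    Pr (fun _ => (1 / 2 : ℝ)) (Df a (a + (R / 2 : ℕ)) y R) (fun F => Ev a (a + (R / 2 : ℕ)) y R ↑F) ≤
    Pr (fun _ => (1 / 2 : ℝ)) (Df a' (a' + (R / 2 : ℕ)) y R)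
      (fun F => Ev a' (a' + (R / 2 : ℕ)) y R ↑F) := by
  have h1 : Df a' (a' + (R / 2 : ℕ)) y R = (trl (a' - a) 0).mp (Df a (a + (R / 2 : ℕ)) y R) := by
    rw [Df_trl]
    congr 1 <;> ring
  rw [h1, LSym.pr]
  apply Pr_mono okh
  intro F _ h
  have h2 := Ev_trl (s := a' - a) h
  have e1 : a + (a' - a) = a' := by ring
  have e2 : a + ((R / 2 : ℕ) : ℤ) + (a' - a) = a' + (R / 2 : ℕ) := by ring
  rw [e1, e2] at h2
  exact h2

/-- the probability of the event with a fixed leftmost column -/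
theorem q_bound : ∃ C : ℝ, 0 < C ∧ ∀ (R : ℕ) (a y : ℤ), 16 ≤ R →
    Pr (fun _ => (1 / 2 : ℝ)) (Df a (a + (R / 2 : ℕ)) y R)
      (fun F => Ev a (a + (R / 2 : ℕ)) y R ↑F) ≤ C / R := by
  classical
  obtain ⟨C, hC, hbig⟩ := big 64
  refine ⟨8 * C, by positivity, ?_⟩
  intro R a y hR
  set q := Pr (fun _ => (1 / 2 : ℝ)) (Df a (a + (R / 2 : ℕ)) y R)
      (fun F => Ev a (a + (R / 2 : ℕ)) y R ↑F) with hq
  have hR0 : (0 : ℝ) < R := by
    have : 0 < R := by omega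
    exact_mod_cast this
  have hq0 : 0 ≤ q := Pr_nonneg okh _ _
  -- the common box, columns `a - 1, ..., a + R / 2`
  set D := Df a (a + (R / 2 : ℕ)) y R with hD
  set I : Finset Vtx := Icc a (a + (R / 8 : ℕ)) ×ˢ Icc (y - R) (y + R) with hI
  have hsum : ∑ v ∈ I, PQ (1 / 2) (dmp D) (Ext (R / 16) v) ≤ C := by
    apply hbig (R / 16) (by omega) (a - 1) (a + (R / 2 : ℕ)) (y - R) (y + R)
    · push_cast; omega
    · push_cast; omega
    · rintro ⟨x, z, _ | _⟩ he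
      · rw [mem_dmp, dls_f, hD, mem_Df] at he
        simp only [Dq, Set.mem_ofPred_eq, inR, dsrc_true, dtgt_mk] at he
        rw [mem_RE_false]
        omega
      · rw [mem_dmp, dls_t, hD, mem_Df] at he
        simp only [Dq, Set.mem_ofPred_eq, inR, dsrc_false, dtgt_mk] at he
        rw [mem_RE_true]
        omega
    · intro F _ v _ hP
      exact hP.1
    · intro F _ v _ w _ hv hw hr
      exact Ext_eq hv hw hr
  have hcol : ∀ j ∈ Icc a (a + (R / 8 : ℕ)), q ≤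
      ∑ k ∈ Icc (y - (R : ℤ)) (y + R), PQ (1 / 2) (dmp D) (Ext (R / 16) (j, k)) := by
    intro j hj
    rw [mem_Icc] at hj
    set Dj := Df j (j + (R / 2 : ℕ)) y R with hDj
    have s1 : q ≤ Pr (fun _ => (1 / 2 : ℝ)) Dj (fun F => Ev j (j + (R / 2 : ℕ)) y R ↑F) :=
      Pr_Ev a j y R
    have s2 : Pr (fun _ => (1 / 2 : ℝ)) Dj (fun F => Ev j (j + (R / 2 : ℕ)) y R ↑F) =
        Pr (fun _ => (1 / 2 : ℝ)) (Dj ∪ D) (fun F => Ev j (j + (R / 2 : ℕ)) y R ↑(F ∩ Dj)) :=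
      (Pr_marg Finset.subset_union_left
        (fun F : Finset Edg => Ev j (j + (R / 2 : ℕ)) y R (↑F : Set Edg))).symm
    have s3 : Pr (fun _ => (1 / 2 : ℝ)) (Dj ∪ D)
        (fun F => Ev j (j + (R / 2 : ℕ)) y R ↑(F ∩ Dj)) ≤
        Pr (fun _ => (1 / 2 : ℝ)) (Dj ∪ D) (fun F => ∃ k ∈ Icc (y - (R : ℤ)) (y + R),
          Ext (R / 16) (j, k) (dmp (D \ F))) := by
      apply Pr_mono okh
      intro F _ h
      have h' : Ev j (j + (R / 2 : ℕ)) y R ↑F := by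
        have hset : (Dq j (j + (R / 2 : ℕ)) y R \ ↑(F ∩ Dj) : Set Edg)
            = Dq j (j + (R / 2 : ℕ)) y R \ ↑F := by
          ext e
          rw [coe_inter, hDj, coe_Df]
          simp only [Set.mem_sdiff, Set.mem_inter_iff]
          tauto
        obtain ⟨v, h1, h2, ⟨g, g1, g2⟩, h3⟩ := h
        rw [hset] at g2
        rw [hset] at h3
        exact ⟨v, h1, h2, ⟨g, g1, g2⟩, h3⟩
      obtain ⟨k, hk, hE⟩ := Ext_of_Ev hR hj.1 hj.2 h'
      exact ⟨k, mem_Icc.2 hk, hE⟩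
    have s4 : Pr (fun _ => (1 / 2 : ℝ)) (Dj ∪ D) (fun F => ∃ k ∈ Icc (y - (R : ℤ)) (y + R),
          Ext (R / 16) (j, k) (dmp (D \ F))) ≤
        ∑ k ∈ Icc (y - (R : ℤ)) (y + R), Pr (fun _ => (1 / 2 : ℝ)) (Dj ∪ D)
          (fun F => Ext (R / 16) (j, k) (dmp (D \ F))) :=
      Pr_exists_le okh _ _ _
    refine s1.trans ((le_of_eq s2).trans (s3.trans (s4.trans (le_of_eq ?_))))
    apply Finset.sum_congr rfl
    intro k _
    have t1 : Pr (fun _ => (1 / 2 : ℝ)) (Dj ∪ D) (fun F => Ext (R / 16) (j, k) (dmp (D \ F))) =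
        Pr (fun _ => (1 / 2 : ℝ)) D (fun F => Ext (R / 16) (j, k) (dmp (D \ F))) := by
      rw [← Pr_marg (Finset.subset_union_right (s₁ := Dj) (s₂ := D))
        (fun F : Finset Edg => Ext (R / 16) (j, k) (dmp (D \ F)))]
      apply Pr_congr
      intro F _
      have : D \ (F ∩ D) = D \ F := by
        ext e; simp only [mem_sdiff, mem_inter]; tauto
      rw [this]
    rw [t1]
    have t2 := Pr_compl (fun _ : Edg => (1 / 2 : ℝ)) D (fun F => Ext (R / 16) (j, k) (dmp F))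
    have t3 : (fun _ : Edg => (1 - 1 / 2 : ℝ)) = fun _ => (1 / 2 : ℝ) := by
      funext _; norm_num
    rw [t3] at t2
    rw [← t2]
    exact (pr_dmp (1 / 2) D _).symm
  have hfin : ((R / 8 + 1 : ℕ) : ℝ) * q ≤ C := by
    have h1 : ((Icc a (a + (R / 8 : ℕ))).card : ℝ) * q ≤
        ∑ j ∈ Icc a (a + (R / 8 : ℕ)), ∑ k ∈ Icc (y - (R : ℤ)) (y + R),
          PQ (1 / 2) (dmp D) (Ext (R / 16) (j, k)) := by
      rw [← nsmul_eq_mul]
      exact Finset.card_nsmul_le_sum _ _ _ hcol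
    rw [← Finset.sum_product' (f := fun j k => PQ (1 / 2) (dmp D) (Ext (R / 16) (j, k)))] at h1
    have h2 : (Icc a (a + (R / 8 : ℕ))).card = R / 8 + 1 := by
      rw [Int.card_Icc]; omega
    rw [h2] at h1
    exact h1.trans hsum
  have h8 : (R : ℝ) ≤ 8 * ((R / 8 + 1 : ℕ) : ℝ) := by
    have : R ≤ 8 * (R / 8 + 1) := by omega
    exact_mod_cast this
  rw [le_div_iff₀ hR0]
  calc q * R ≤ q * (8 * ((R / 8 + 1 : ℕ) : ℝ)) := mul_le_mul_of_nonneg_left h8 hq0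
    _ = 8 * (((R / 8 + 1 : ℕ) : ℝ) * q) := by ring
    _ ≤ 8 * C := by linarith

theorem t_DT : S_DT := by
  classical
  obtain ⟨C, hC, hq⟩ := q_bound
  refine ⟨C, hC, ?_⟩
  intro R θ A y1 hR hθ S hS
  have hsub : ∀ a ∈ Icc A (A + θ), Df a (a + (R / 2 : ℕ)) y1 R ⊆ S := by
    intro a ha e he
    rw [mem_Icc] at ha
    rw [mem_Df] at he
    apply mem_coe.1
    apply hS
    obtain ⟨e1, ⟨⟨e2, e3⟩, e4⟩, ⟨e5, e6⟩, e7⟩ := he
    exact ⟨by omega, ⟨⟨by omega, by omega⟩, e4⟩, ⟨by omega, by omega⟩, e7⟩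
  have h1 : PQ (1 / 2) S (fun F => DT A y1 R θ ↑F) ≤
      Pr (fun _ => (1 / 2 : ℝ)) S (fun F => ∃ a ∈ Icc A (A + θ),
        Ev a (a + (R / 2 : ℕ)) y1 R (↑F : Set Edg)) := by
    apply Pr_mono okh
    intro F _ h
    obtain ⟨a, ha, hE⟩ := Ev_of_DT hR hθ h
    exact ⟨a, mem_Icc.2 ha, hE⟩
  have h2 : Pr (fun _ => (1 / 2 : ℝ)) S (fun F => ∃ a ∈ Icc A (A + θ),
        Ev a (a + (R / 2 : ℕ)) y1 R (↑F : Set Edg)) ≤
      ∑ a ∈ Icc A (A + θ), Pr (fun _ => (1 / 2 : ℝ)) S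
        (fun F => Ev a (a + (R / 2 : ℕ)) y1 R (↑F : Set Edg)) :=
    Pr_exists_le okh _ _ _
  have h3 : ∀ a ∈ Icc A (A + θ), Pr (fun _ => (1 / 2 : ℝ)) S
        (fun F => Ev a (a + (R / 2 : ℕ)) y1 R (↑F : Set Edg)) ≤ C / R := by
    intro a ha
    refine le_trans (le_of_eq ?_) (hq R a y1 hR)
    rw [← Pr_marg (hsub a ha) (fun F : Finset Edg => Ev a (a + (R / 2 : ℕ)) y1 R (↑F : Set Edg))]
    apply Pr_congr
    intro F _
    have hset : (Dq a (a + (R / 2 : ℕ)) y1 R \ ↑(F ∩ Df a (a + (R / 2 : ℕ)) y1 R) : Set Edg)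
        = Dq a (a + (R / 2 : ℕ)) y1 R \ ↑F := by
      ext e
      rw [coe_inter, coe_Df]
      simp only [Set.mem_sdiff, Set.mem_inter_iff]
      tauto
    unfold Ev
    rw [hset]
  refine h1.trans (h2.trans ((Finset.sum_le_card_nsmul _ _ _ h3).trans ?_))
  rw [nsmul_eq_mul, Int.card_Icc]
  have h4 : (A + (θ : ℤ) + 1 - A).toNat = θ + 1 := by omega
  rw [h4]
  push_cast
  apply le_of_eq
  ring

end Pool.Agent.V5helper9.OB
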