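import Pool.Agent.V5helper9.OB.Big

/-!
# JOB CNT of MP_6bd702_pr: extreme vertices of large clusters in a box
-/

set_option autoImplicit false

namespace Pool.Agent.V5helper9.OB

open H974 H12S Finset H984P H984N
open Pool.Agent.V5helper99.OB

/-- restriction to a smaller set of edges -/
theorem Pr_marg {p : Edg → ℝ} {S S' : Finset Edg} (hS : S' ⊆ S) (A : Finset Edg → Prop) :
    Pr p S (fun F => A (F ∩ S')) = Pr p S' A := by
  have h1 : Pr p S (fun F => A (F ∩ S')) = Pr p S' (fun F => A (F ∩ S')) := by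
    apply Pr_local hS
    intro F _
    rw [Finset.inter_assoc, Finset.inter_self]
  have h2 : Pr p S' (fun F => A (F ∩ S')) = Pr p S' A := by
    apply Pr_congr
    intro F hF
    rw [Finset.inter_eq_left.mpr hF]
  rw [h1, h2]

/-- extreme vertex of a large cluster -/
def Ext (ρ : ℕ) (v : Vtx) (G : Finset Edg) : Prop :=
  (∃ w, (ρ : ℤ) ≤ sd v w ∧ Reach (↑G : Set Edg) v w) ∧
    ∀ w, Reach (↑G : Set Edg) v w → v.1 ≤ w.1 ∧ (w.1 = v.1 → w.2 ≤ v.2)

theorem Ext_eq {ρ : ℕ} {v w : Vtx} {G : Finset Edg} (hv : Ext ρ v G) (hw : Ext ρ w G)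
    (h : Reach (↑G : Set Edg) v w) : v = w := by
  have h1 := hv.2 w h
  have h2 := hw.2 v h.symm
  have h3 : v.1 = w.1 := le_antisymm h1.1 h2.1
  have h4 := h1.2 h3.symm
  have h5 := h2.2 h3
  exact Prod.ext h3 (le_antisymm h5 h4)

theorem t_LL : S_LL := by
  obtain ⟨C, hC, hbig⟩ := big 16
  refine ⟨C, hC, ?_⟩
  intro n ρ hρ z
  set h := ρ / 2 with hh
  set e := ρ / 8 with he
  set r := h - e with hr
  have hr1 : 1 ≤ r := by omega
  set a : ℤ := max 0 (z.1 - h) with ha
  set b : ℤ := min n (z.1 + h) with hb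
  set c : ℤ := max 0 (z.2 - h) with hc
  set d : ℤ := min n (z.2 + h) with hd
  have hsub : RE a b c d ⊆ RE 0 n 0 n := by
    rintro ⟨x, y, _ | _⟩ hx
    · rw [mem_RE_false] at hx ⊢; omega
    · rw [mem_RE_true] at hx ⊢; omega
  have hmem : ∀ g : Edg, g ∈ RE 0 n 0 n → g ∈ RE (z.1 - h) (z.1 + h) (z.2 - h) (z.2 + h) →
      g ∈ RE a b c d := by
    rintro ⟨x, y, _ | _⟩ h1 h2
    · rw [mem_RE_false] at h1 h2 ⊢; omega
    · rw [mem_RE_true] at h1 h2 ⊢; omega
  have key : ∀ v ∈ ctr z (ρ / 8), PQ (1 / 2) (RE 0 n 0 n) (fun F => Lloc ρ v ↑F) ≤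
      PQ (1 / 2) (RE a b c d) (Ext r v) := by
    intro v hv
    unfold ctr at hv
    rw [mem_product, mem_Icc, mem_Icc] at hv
    show Pr (fun _ => (1 / 2 : ℝ)) _ _ ≤ Pr (fun _ => (1 / 2 : ℝ)) _ _
    rw [← Pr_marg (p := fun _ => (1 / 2 : ℝ)) hsub (Ext r v)]
    apply Pr_mono okh
    intro F hF hL
    obtain ⟨⟨w, hw, hrw⟩, h2⟩ := hL
    refine ⟨?_, ?_⟩
    · have hfar : w.1 ≤ z.1 - h ∨ z.1 + h ≤ w.1 ∨ w.2 ≤ z.2 - h ∨ z.2 + h ≤ w.2 := by
        unfold sd at hw
        rcases max_choice |w.1 - v.1| |w.2 - v.2| with h3 | h3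
        · rw [h3] at hw
          rcases abs_choice (w.1 - v.1) with h' | h' <;> rw [h'] at hw <;> omega
        · rw [h3] at hw
          rcases abs_choice (w.2 - v.2) with h' | h' <;> rw [h'] at hw <;> omega
      obtain ⟨w', k1, k2, k3⟩ := first_exit (a := z.1 - h) (b := z.1 + h) (c := z.2 - h)
        (d := z.2 + h) (u := v) (by unfold inR; omega) hrw hfar
      refine ⟨w', ?_, ?_⟩
      · unfold sd
        rcases k2 with k2 | k2 | k2 | k2
        · refine le_trans ?_ (le_max_left _ _)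
          refine le_trans ?_ (le_abs_self _)
          omega
        · refine le_trans ?_ (le_max_left _ _)
          refine le_trans ?_ (neg_le_abs _)
          omega
        · refine le_trans ?_ (le_max_right _ _)
          refine le_trans ?_ (le_abs_self _)
          omega
        · refine le_trans ?_ (le_max_right _ _)
          refine le_trans ?_ (neg_le_abs _)
          omega
      · refine k3.mono ?_
        rintro g ⟨⟨g1, _⟩, g3⟩
        rw [coe_inter]
        exact ⟨g1, mem_coe.2 (hmem g (hF (mem_coe.1 g1)) (mem_coe.1 g3))⟩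
    · intro w' hw'
      apply h2 w'
      refine hw'.mono ?_
      intro g hg
      rw [coe_inter] at hg
      refine ⟨hg.1, ?_⟩
      have h3 := mem_coe.1 hg.2
      rw [mem_coe]
      unfold blk
      obtain ⟨x, y, _ | _⟩ := g
      · rw [mem_RE_false] at h3 ⊢; omega
      · rw [mem_RE_true] at h3 ⊢; omega
  refine (Finset.sum_le_sum key).trans ?_
  apply hbig r hr1 a b c d _ _ (RE a b c d) (Subset.refl _)
  · intro F _ v _ hP
    exact hP.1
  · intro F _ v _ w _ hv hw hr
    exact Ext_eq hv hw hr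
  · push_cast; omega
  · push_cast; omega

end Pool.Agent.V5helper9.OB
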